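import Pool.Agent.Q257.Lap.Balanced

set_option autoImplicit false

/-!
# Balanced digraphs with Laplacian spread exactly one
-/

namespace Pool.Agent.Results.MP_436edf_co.SpreadOne

open Pool.Agent.Q257.Lap

/-- A digraph on `Fin n` without loops (given by its arc relation) is balanced if every vertex has as
many out-neighbours as in-neighbours. -/
def Balanced {n : ℕ} (E : Fin n → Fin n → Prop) : Prop :=
  ∀ i, {j | E i j}.ncard = {j | E j i}.ncard

/-- `k`-regular: all in-degrees and out-degrees are `k`. -/
def Regular {n : ℕ} (E : Fin n → Fin n → Prop) (k : ℕ) : Prop :=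
  ∀ i, {j | E i j}.ncard = k ∧ {j | E j i}.ncard = k

/-- the complement digraph -/
def compl {n : ℕ} (E : Fin n → Fin n → Prop) : Fin n → Fin n → Prop := fun i j => i ≠ j ∧ ¬ E i j

theorem card_out {n : ℕ} (E : Fin n → Fin n → Prop) (i : Fin n) :
    {j | E i j}.ncard = (PP E i).card + (UU E i).card := by
  classical
  rw [Set.ncard_eq_toFinset_card']
  unfold PP UU
  rw [← Finset.card_union_of_disjoint]
  · congr 1
    ext j
    by_cases h1 : E i j <;> by_cases h2 : E j i <;> simp [h1, h2]
  · rw [Finset.disjoint_left]
    intro j h1 h2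
    simp only [Finset.mem_filter, Finset.mem_univ, true_and] at h1 h2
    exact h2.2 h1.2

theorem card_in {n : ℕ} (E : Fin n → Fin n → Prop) (i : Fin n) :
    {j | E j i}.ncard = (PP E i).card + (WW E i).card := by
  classical
  rw [Set.ncard_eq_toFinset_card']
  unfold PP WW
  rw [← Finset.card_union_of_disjoint]
  · congr 1
    ext j
    by_cases h1 : E i j <;> by_cases h2 : E j i <;> simp [h1, h2]
  · rw [Finset.disjoint_left]
    intro j h1 h2
    simp only [Finset.mem_filter, Finset.mem_univ, true_and] at h1 h2
    exact h2.1 h1.1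

theorem card_compl_out {n : ℕ} (E : Fin n → Fin n → Prop) (i : Fin n) :
    {j | compl E i j}.ncard = (VV E i).card + (WW E i).card := by
  classical
  rw [Set.ncard_eq_toFinset_card']
  unfold VV WW
  rw [← Finset.card_union_of_disjoint]
  · congr 1
    ext j
    unfold compl
    by_cases h0 : i = j <;> by_cases h1 : E i j <;> by_cases h2 : E j i <;>
      simp [h0, h1, h2, eq_comm]
  · rw [Finset.disjoint_left]
    intro j h1 h2
    simp only [Finset.mem_filter, Finset.mem_univ, true_and] at h1 h2
    exact h1.2.2 h2.2

theorem card_compl_in {n : ℕ} (E : Fin n → Fin n → Prop) (i : Fin n) :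
    {j | compl E j i}.ncard = (VV E i).card + (UU E i).card := by
  classical
  rw [Set.ncard_eq_toFinset_card']
  unfold VV UU
  rw [← Finset.card_union_of_disjoint]
  · congr 1
    ext j
    unfold compl
    by_cases h0 : i = j <;> by_cases h1 : E i j <;> by_cases h2 : E j i <;>
      simp [h0, h1, h2, eq_comm]
  · rw [Finset.disjoint_left]
    intro j h1 h2
    simp only [Finset.mem_filter, Finset.mem_univ, true_and] at h1 h2
    exact h1.2.1 h2.1

/-- If a balanced digraph of order `n ≥ 3` has Laplacian spread `1`, then `n ≥ 4` is even and the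
digraph or its complement is `(n-2)/2`-regular. -/
theorem result : ∀ (n : ℕ) (_ : 3 ≤ n) (E : Fin n → Fin n → Prop), (∀ i, ¬ E i i) → Balanced E →
    spread E = 1 → 4 ≤ n ∧ Even n ∧ (Regular E ((n - 2) / 2) ∨ Regular (compl E) ((n - 2) / 2)) := by
  intro n hn E hE hb hs
  have hB := bal_of_ncard E hb
  rcases dichotomy (by omega) E hE hB hs.le with h | ⟨_, h4, hev, h | h⟩
  · rw [hs] at h
    norm_num at h
  · refine ⟨h4, hev, Or.inr fun i => ?_⟩
    have h1 := h i
    have h2 := bal_card hB i
    rw [card_compl_out, card_compl_in]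
    omega
  · refine ⟨h4, hev, Or.inl fun i => ?_⟩
    have h1 := h i
    have h2 := bal_card hB i
    rw [card_out, card_in]
    omega

end Pool.Agent.Results.MP_436edf_co.SpreadOne
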